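import Pool.Agent.helper73.SHL.Spec

/-! Row `shl:CON` (the file cannot be named CON.lean). -/

namespace Pool.Agent.SHL

/-- the conic has a point over `F` -/
def CON_S (F : Type) [Field F] (a b : ℤ) : Prop :=
  ∃ x y z : F, (x ≠ 0 ∨ y ≠ 0 ∨ z ≠ 0) ∧ z ^ 2 = a * x ^ 2 + b * y ^ 2

theorem CON_symm {F : Type} [Field F] {a b : ℤ} (h : CON_S F a b) : CON_S F b a := by
  obtain ⟨x, y, z, h1, h2⟩ := h
  exact ⟨y, x, z, by tauto, by rw [h2]; ring⟩

theorem CON_sq {F : Type} [Field F] [CharZero F] {a b c : ℤ} (hc : c ≠ 0) :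
    CON_S F (c ^ 2 * a) b ↔ CON_S F a b := by
  have hc' : (c : F) ≠ 0 := by exact_mod_cast hc
  constructor
  · rintro ⟨x, y, z, h1, h2⟩
    refine ⟨c * x, y, z, ?_, ?_⟩
    · rcases h1 with h1 | h1
      · exact Or.inl (mul_ne_zero hc' h1)
      · exact Or.inr h1
    · rw [h2]; push_cast; ring
  · rintro ⟨x, y, z, h1, h2⟩
    refine ⟨x / c, y, z, ?_, ?_⟩
    · rcases h1 with h1 | h1
      · exact Or.inl (div_ne_zero h1 hc')
      · exact Or.inr h1
    · rw [h2]; push_cast; field_simp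

theorem CON_T {F : Type} [Field F] [CharZero F] {a b b' t : ℤ} (hb : b ≠ 0)
    (h : t ^ 2 - a = b * b') (hS : CON_S F a b) : CON_S F a b' := by
  obtain ⟨x, y, z, h1, h2⟩ := hS
  have hb' : (b : F) ≠ 0 := by exact_mod_cast hb
  have hF : (t : F) ^ 2 - a = b * b' := by exact_mod_cast h
  by_cases hy : y = 0
  · subst hy
    refine ⟨x, 0, z, ?_, ?_⟩
    · simpa using h1
    · rw [h2]; ring
  · refine ⟨z + t * x, b * y, z * t + a * x, Or.inr (Or.inl (mul_ne_zero hb' hy)), ?_⟩
    have h3 : (b : F) * y ^ 2 = z ^ 2 - a * x ^ 2 := by rw [h2]; ring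
    calc (z * t + a * x) ^ 2 = a * (z + t * x) ^ 2 + (t ^ 2 - a) * (z ^ 2 - a * x ^ 2) := by ring
      _ = a * (z + t * x) ^ 2 + (b * b') * (b * y ^ 2) := by rw [hF, h3]
      _ = _ := by ring

theorem CON_prim (q : ℕ) [Fact q.Prime] {a b : ℤ} (h : CON_S ℚ_[q] a b) :
    ∃ x y z : ℤ_[q], (x = 1 ∨ y = 1 ∨ z = 1) ∧ z ^ 2 = a * x ^ 2 + b * y ^ 2 := by
  obtain ⟨x, y, z, h1, h2⟩ := h
  have key : ∀ m : ℚ_[q], m ≠ 0 → ‖x‖ ≤ ‖m‖ → ‖y‖ ≤ ‖m‖ → ‖z‖ ≤ ‖m‖ →
      (x = m ∨ y = m ∨ z = m) →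
      ∃ x y z : ℤ_[q], (x = 1 ∨ y = 1 ∨ z = 1) ∧ z ^ 2 = a * x ^ 2 + b * y ^ 2 := by
    intro m hm hx hy hz he
    have hm' : 0 < ‖m‖ := norm_pos_iff.2 hm
    refine ⟨⟨x / m, by rw [norm_div]; exact div_le_one_of_le₀ hx hm'.le⟩,
      ⟨y / m, by rw [norm_div]; exact div_le_one_of_le₀ hy hm'.le⟩,
      ⟨z / m, by rw [norm_div]; exact div_le_one_of_le₀ hz hm'.le⟩, ?_, ?_⟩
    · rcases he with he | he | he
      · left; apply Subtype.ext; subst he; exact div_self hm
      · right; left; apply Subtype.ext; subst he; exact div_self hm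
      · right; right; apply Subtype.ext; subst he; exact div_self hm
    · apply Subtype.ext
      push_cast
      field_simp
      rw [h2]
  rcases le_total ‖x‖ ‖y‖ with hxy | hxy
  · rcases le_total ‖y‖ ‖z‖ with hyz | hyz
    · refine key z ?_ (hxy.trans hyz) hyz le_rfl (Or.inr (Or.inr rfl))
      rintro rfl
      rw [norm_zero] at hyz
      have e1 : y = 0 := norm_le_zero_iff.1 hyz
      have e2 : x = 0 := by rw [e1, norm_zero] at hxy; exact norm_le_zero_iff.1 hxy
      simp [e1, e2] at h1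
    · refine key y ?_ hxy le_rfl hyz (Or.inr (Or.inl rfl))
      rintro rfl
      rw [norm_zero] at hyz hxy
      have e1 : z = 0 := norm_le_zero_iff.1 hyz
      have e2 : x = 0 := norm_le_zero_iff.1 hxy
      simp [e1, e2] at h1
  · rcases le_total ‖x‖ ‖z‖ with hxz | hxz
    · refine key z ?_ hxz (hxy.trans hxz) le_rfl (Or.inr (Or.inr rfl))
      rintro rfl
      rw [norm_zero] at hxz
      have e1 : x = 0 := norm_le_zero_iff.1 hxz
      have e2 : y = 0 := by rw [e1, norm_zero] at hxy; exact norm_le_zero_iff.1 hxy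
      simp [e1, e2] at h1
    · refine key x ?_ le_rfl hxy hxz (Or.inl rfl)
      rintro rfl
      rw [norm_zero] at hxz hxy
      have e1 : z = 0 := norm_le_zero_iff.1 hxz
      have e2 : y = 0 := norm_le_zero_iff.1 hxy
      simp [e1, e2] at h1

theorem CON_two : ¬ CON_S ℚ_[2] (-1) (-1) := by
  intro h
  obtain ⟨x, y, z, h1, h2⟩ := CON_prim 2 h
  have h3 := congrArg (PadicInt.toZModPow 2 : ℤ_[2] →+* ZMod (2 ^ 2)) h2
  simp only [map_pow, map_add, map_mul, map_intCast] at h3
  set u : ZMod (2 ^ 2) := PadicInt.toZModPow 2 x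
  set v : ZMod (2 ^ 2) := PadicInt.toZModPow 2 y
  set w : ZMod (2 ^ 2) := PadicInt.toZModPow 2 z
  have h4 : u = 1 ∨ v = 1 ∨ w = 1 := by
    rcases h1 with h1 | h1 | h1
    · left; simp only [u, h1, map_one]
    · right; left; simp only [v, h1, map_one]
    · right; right; simp only [w, h1, map_one]
  have key : ∀ u v w : ZMod (2 ^ 2), (u = 1 ∨ v = 1 ∨ w = 1) →
      w ^ 2 ≠ ((-1 : ℤ) : ZMod (2 ^ 2)) * u ^ 2 + ((-1 : ℤ) : ZMod (2 ^ 2)) * v ^ 2 := by
    decide
  exact key u v w h4 h3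

theorem CON_mod (q : ℕ) [hq : Fact q.Prime] {a b b' : ℤ} (hb : b = q * b') (hb' : ¬ (q : ℤ) ∣ b')
    (h : CON_S ℚ_[q] a b) : ∃ t : ℤ, (q : ℤ) ∣ t ^ 2 - a := by
  obtain ⟨x, y, z, h1, h2⟩ := CON_prim q h
  have hp : Prime (q : ℤ_[q]) := PadicInt.prime_p
  have hint : ∀ c : ℤ, (q : ℤ_[q]) ∣ (c : ℤ_[q]) → (q : ℤ) ∣ c := by
    intro c hc
    have := (PadicInt.pow_p_dvd_int_iff 1 c).1 (by simpa using hc)
    simpa using this
  by_cases hx : (q : ℤ_[q]) ∣ x
  · exfalso
    have hz : (q : ℤ_[q]) ∣ z := by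
      apply hp.dvd_of_dvd_pow (n := 2)
      rw [h2, hb]
      push_cast
      refine dvd_add (Dvd.dvd.mul_left (dvd_pow hx (by norm_num)) _) ?_
      rw [mul_assoc]
      exact dvd_mul_right _ _
    have hy : (q : ℤ_[q]) ∣ y := by
      obtain ⟨x', rfl⟩ := hx
      obtain ⟨z', rfl⟩ := hz
      have h5 : (q : ℤ_[q]) * ((b' : ℤ_[q]) * y ^ 2) =
          (q : ℤ_[q]) * (q * (z' ^ 2 - a * x' ^ 2)) := by
        have h6 : (b : ℤ_[q]) = q * b' := by rw [hb]; push_cast; rfl
        calc (q : ℤ_[q]) * ((b' : ℤ_[q]) * y ^ 2) = b * y ^ 2 := by rw [h6]; ring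
          _ = (q * z') ^ 2 - a * (q * x') ^ 2 := by rw [h2]; ring
          _ = _ := by ring
      have h7 := mul_left_cancel₀ hp.ne_zero h5
      have h8 : (q : ℤ_[q]) ∣ (b' : ℤ_[q]) * y ^ 2 := by rw [h7]; exact dvd_mul_right _ _
      rcases hp.dvd_or_dvd h8 with h9 | h9
      · exact absurd (hint b' h9) hb'
      · exact hp.dvd_of_dvd_pow h9
    rcases h1 with h1 | h1 | h1
    · rw [h1] at hx; exact hp.not_dvd_one hx
    · rw [h1] at hy; exact hp.not_dvd_one hy
    · rw [h1] at hz; exact hp.not_dvd_one hz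
  · have h3 := congrArg (PadicInt.toZMod : ℤ_[q] →+* ZMod q) h2
    simp only [map_pow, map_add, map_mul, map_intCast] at h3
    have hbz : ((b : ℤ) : ZMod q) = 0 := by
      rw [hb]; push_cast; simp
    rw [hbz, zero_mul, add_zero] at h3
    have hxz : (PadicInt.toZMod x : ZMod q) ≠ 0 := by
      intro h0
      apply hx
      have h4 : x ∈ RingHom.ker (PadicInt.toZMod : ℤ_[q] →+* ZMod q) := h0
      rw [PadicInt.ker_toZMod, PadicInt.maximalIdeal_eq_span_p, Ideal.mem_span_singleton] at h4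
      exact h4
    have h5 : ((PadicInt.toZMod z : ZMod q) / PadicInt.toZMod x) ^ 2 = (a : ZMod q) := by
      rw [div_pow, h3]
      field_simp
    obtain ⟨t, ht⟩ := ZMod.intCast_surjective ((PadicInt.toZMod z : ZMod q) / PadicInt.toZMod x)
    refine ⟨t, ?_⟩
    rw [← ZMod.intCast_zmod_eq_zero_iff_dvd]
    push_cast
    rw [ht, h5, sub_self]

theorem CON_crt (a : ℤ) (n : ℕ) : Squarefree n →
    (∀ q : ℕ, q.Prime → q ∣ n → ∃ t : ℤ, (q : ℤ) ∣ t ^ 2 - a) → ∃ t : ℤ, (n : ℤ) ∣ t ^ 2 - a := by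
  induction n using induction_on_primes with
  | zero => intro h; exact absurd h not_squarefree_zero
  | one => intro _ _; exact ⟨0, by simp⟩
  | prime_mul p m hp ih =>
    intro hsq hq
    have hcop : Nat.Coprime p m := (Nat.squarefree_mul_iff.1 hsq).1
    obtain ⟨t1, h1⟩ := hq p hp (dvd_mul_right p m)
    obtain ⟨t2, h2⟩ := ih (Nat.squarefree_mul_iff.1 hsq).2.2
      (fun q hqp hqm => hq q hqp (Dvd.dvd.mul_left hqm p))
    have hic : IsCoprime (p : ℤ) (m : ℤ) := Nat.isCoprime_iff_coprime.2 hcop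
    obtain ⟨u, v, huv⟩ := hic
    refine ⟨t1 * (v * m) + t2 * (u * p), ?_⟩
    push_cast
    apply IsCoprime.mul_dvd (Nat.isCoprime_iff_coprime.2 hcop)
    · have e : (t1 * (v * m) + t2 * (u * p)) ^ 2 - a = (t1 ^ 2 - a) +
          p * ((t1 * (v * m) + t2 * (u * p) + t1) * (u * (t2 - t1))) := by
        have : v * (m : ℤ) = 1 - u * p := by linarith
        rw [this]; ring
      rw [e]
      exact dvd_add h1 (dvd_mul_right _ _)
    · have e : (t1 * (v * m) + t2 * (u * p)) ^ 2 - a = (t2 ^ 2 - a) +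
          m * ((t1 * (v * m) + t2 * (u * p) + t2) * (v * (t1 - t2))) := by
        have : u * (p : ℤ) = 1 - v * m := by linarith
        rw [this]; ring
      rw [e]
      exact dvd_add h2 (dvd_mul_right _ _)

theorem CON_small (b t : ℤ) (hb : b ≠ 0) : ∃ t' : ℤ, b ∣ t' - t ∧ 2 * |t'| ≤ |b| := by
  have hb' : 0 < |b| := abs_pos.2 hb
  have h1 := Int.emod_nonneg t hb
  have h2 := Int.emod_lt_abs t hb
  have h3 : b ∣ t % b - t := by
    rw [← dvd_neg, neg_sub]
    exact Int.dvd_self_sub_emod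
  by_cases h : 2 * (t % b) ≤ |b|
  · exact ⟨t % b, h3, by rw [abs_of_nonneg h1]; exact h⟩
  · refine ⟨t % b - |b|, ?_, ?_⟩
    · have h4 : b ∣ |b| := (dvd_abs b b).2 dvd_rfl
      have : t % b - |b| - t = (t % b - t) - |b| := by ring
      rw [this]
      exact dvd_sub h3 h4
    · rw [abs_of_nonpos (by linarith)]
      linarith

theorem CON_int {a b : ℤ} (h : CON_S ℚ a b) :
    ∃ x y z : ℤ, (x ≠ 0 ∨ y ≠ 0 ∨ z ≠ 0) ∧ z ^ 2 = a * x ^ 2 + b * y ^ 2 := by
  obtain ⟨x, y, z, h1, h2⟩ := h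
  have hx : (x.den : ℚ) ≠ 0 := by exact_mod_cast x.den_nz
  have hy : (y.den : ℚ) ≠ 0 := by exact_mod_cast y.den_nz
  have hz : (z.den : ℚ) ≠ 0 := by exact_mod_cast z.den_nz
  have ex : x * x.den = x.num := Rat.mul_den_eq_num x
  have ey : y * y.den = y.num := Rat.mul_den_eq_num y
  have ez : z * z.den = z.num := Rat.mul_den_eq_num z
  refine ⟨x.num * (y.den * z.den), y.num * (x.den * z.den), z.num * (x.den * y.den), ?_, ?_⟩
  · have hx' : (x.den : ℤ) ≠ 0 := by exact_mod_cast x.den_nz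
    have hy' : (y.den : ℤ) ≠ 0 := by exact_mod_cast y.den_nz
    have hz' : (z.den : ℤ) ≠ 0 := by exact_mod_cast z.den_nz
    rcases h1 with h1 | h1 | h1
    · left; exact mul_ne_zero (Rat.num_ne_zero.2 h1) (mul_ne_zero hy' hz')
    · right; left; exact mul_ne_zero (Rat.num_ne_zero.2 h1) (mul_ne_zero hx' hz')
    · right; right; exact mul_ne_zero (Rat.num_ne_zero.2 h1) (mul_ne_zero hx' hy')
  · have : ((z.num * (x.den * y.den) : ℤ) : ℚ) ^ 2 =
        a * ((x.num * (y.den * z.den) : ℤ) : ℚ) ^ 2 +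
          b * ((y.num * (x.den * z.den) : ℤ) : ℚ) ^ 2 := by
      push_cast
      rw [← ex, ← ey, ← ez]
      calc (z * z.den * (x.den * y.den)) ^ 2 = z ^ 2 * (x.den * y.den * z.den) ^ 2 := by ring
        _ = _ := by rw [h2]; ring
    exact_mod_cast this

theorem CON_main : ∀ (N : ℕ) (a b : ℤ), a.natAbs + b.natAbs ≤ N → a ≠ 0 → b ≠ 0 →
    (∀ (q : ℕ) [Fact q.Prime], CON_S ℚ_[q] a b) → CON_S ℚ a b := by
  intro N
  induction N with
  | zero =>
    intro a b hN ha hb _
    have := Int.natAbs_pos.2 ha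
    omega
  | succ N ih =>
    -- reduction of square factors
    have hred : ∀ a b : ℤ, a.natAbs + b.natAbs ≤ N + 1 → a ≠ 0 → b ≠ 0 →
        (∀ (q : ℕ) [Fact q.Prime], CON_S ℚ_[q] a b) → ¬ Squarefree a → CON_S ℚ a b := by
      intro a b hN ha hb hq hsq
      unfold Squarefree at hsq
      push Not at hsq
      obtain ⟨c, ⟨a', ha'⟩, hcu⟩ := hsq
      have hc0 : c ≠ 0 := by
        rintro rfl
        apply ha
        rw [ha']
        ring
      have ha'0 : a' ≠ 0 := by
        rintro rfl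
        apply ha
        rw [ha']
        ring
      have e : a = c ^ 2 * a' := by rw [ha']; ring
      have hc2 : 2 ≤ c.natAbs := by
        have h1 : c.natAbs ≠ 0 := Int.natAbs_ne_zero.2 hc0
        have h2 : c.natAbs ≠ 1 := fun h => hcu (Int.isUnit_iff_natAbs_eq.2 h)
        omega
      have hlt : a'.natAbs < a.natAbs := by
        rw [e, Int.natAbs_mul, Int.natAbs_pow]
        have h5 := Int.natAbs_pos.2 ha'0
        have h6 : 4 ≤ c.natAbs ^ 2 := by nlinarith
        have h7 : 4 * a'.natAbs ≤ c.natAbs ^ 2 * a'.natAbs := Nat.mul_le_mul_right _ h6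
        omega
      rw [e, CON_sq hc0]
      refine ih a' b (by omega) ha'0 hb ?_
      intro q hqp
      have := hq q
      rwa [e, CON_sq hc0] at this
    -- squarefree, |a| ≤ |b|
    have hmain : ∀ a b : ℤ, a.natAbs + b.natAbs ≤ N + 1 → a ≠ 0 → b ≠ 0 →
        (∀ (q : ℕ) [Fact q.Prime], CON_S ℚ_[q] a b) → Squarefree b →
        a.natAbs ≤ b.natAbs → CON_S ℚ a b := by
      intro a b hN ha hb hq hsqb hab
      by_cases hb1 : b.natAbs = 1
      · have ha1 : a.natAbs = 1 := by
          have := Int.natAbs_pos.2 ha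
          omega
        rcases Int.natAbs_eq_iff.1 ha1 with h1 | h1
        · exact ⟨1, 0, 1, by simp, by rw [h1]; simp⟩
        · rcases Int.natAbs_eq_iff.1 hb1 with h2 | h2
          · exact ⟨0, 1, 1, by simp, by rw [h2]; simp⟩
          · exfalso
            have h3 := hq 2
            rw [h1, h2] at h3
            exact CON_two h3
      · have hb2 : 2 ≤ b.natAbs := by
          have := Int.natAbs_pos.2 hb
          omega
        have hsqn : Squarefree b.natAbs := Int.squarefree_natAbs.2 hsqb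
        obtain ⟨t₀, ht₀⟩ := CON_crt a b.natAbs hsqn (by
          intro q hqp hqb
          have : Fact q.Prime := ⟨hqp⟩
          have hdv : (q : ℤ) ∣ b := Int.natCast_dvd.2 hqb
          obtain ⟨b', hb'⟩ := hdv
          refine CON_mod q hb' ?_ (hq q)
          rintro ⟨b'', rfl⟩
          have h5 : (q : ℤ) * q ∣ b := ⟨b'', by rw [hb']; ring⟩
          have h6 := hsqb _ h5
          rw [Int.isUnit_iff_natAbs_eq, Int.natAbs_natCast] at h6
          exact hqp.one_lt.ne' h6)
        have ht₁ : b ∣ t₀ ^ 2 - a := Int.natAbs_dvd.1 ht₀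
        obtain ⟨t, ht2, ht3⟩ := CON_small b t₀ hb
        have ht4 : b ∣ t ^ 2 - a := by
          have e : t ^ 2 - a = (t₀ ^ 2 - a) + (t - t₀) * (t + t₀) := by ring
          rw [e]
          exact dvd_add ht₁ (Dvd.dvd.mul_right ht2 _)
        obtain ⟨b', hb'⟩ := ht4
        by_cases hb'0 : b' = 0
        · subst hb'0
          rw [mul_zero] at hb'
          refine ⟨1, 0, t, by simp, ?_⟩
          have : t ^ 2 = a := by linarith
          have h7 : ((t : ℚ)) ^ 2 = a := by exact_mod_cast this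
          rw [h7]; ring
        · have hlt : b'.natAbs < b.natAbs := by
            have h8 : |b| * |b'| ≤ t ^ 2 + |a| := by
              rw [← abs_mul, ← hb']
              calc |t ^ 2 - a| ≤ |t ^ 2| + |a| := abs_sub _ _
                _ = t ^ 2 + |a| := by rw [abs_of_nonneg (sq_nonneg t)]
            have h9 : (|a| : ℤ) ≤ |b| := by
              rw [Int.abs_eq_natAbs, Int.abs_eq_natAbs]
              exact_mod_cast hab
            have h10 : (2 : ℤ) ≤ |b| := by
              rw [Int.abs_eq_natAbs]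
              exact_mod_cast hb2
            have h11 : 4 * t ^ 2 ≤ |b| * |b| := by
              rw [← sq_abs t]
              nlinarith [abs_nonneg t]
            have h12 : |b'| < |b| := by
              by_contra hge
              push Not at hge
              nlinarith
            rw [Int.abs_eq_natAbs, Int.abs_eq_natAbs] at h12
            exact_mod_cast h12
          have hb'' : t ^ 2 - a = b' * b := by rw [hb']; ring
          apply CON_T hb'0 hb''
          refine ih a b' (by omega) ha hb'0 ?_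
          intro q hqp
          exact CON_T hb hb' (hq q)
    intro a b hN ha hb hq
    by_cases hsa : Squarefree a
    · by_cases hsb : Squarefree b
      · rcases le_total a.natAbs b.natAbs with hab | hab
        · exact hmain a b hN ha hb hq hsb hab
        · exact CON_symm (hmain b a (by omega) hb ha (fun q _ => CON_symm (hq q)) hsa hab)
      · exact CON_symm (hred b a (by omega) hb ha (fun q _ => CON_symm (hq q)) hsb)
    · exact hred a b hN ha hb hq hsa

theorem CON : CON_stmt := by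
  intro a b ha hb h
  exact CON_int (CON_main _ a b le_rfl ha hb (fun q _ => h q))

end Pool.Agent.SHL
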