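import Pool.Agent.helper73.SHL.Spec

/-! Row `shl:MIN`. -/

namespace Pool.Agent.SHL

open Matrix Module MeasureTheory

theorem MIN_hadamard (x : Fin 3 → Fin 3 → ℝ) :
    (Matrix.det (Matrix.of x)) ^ 2 ≤ (∑ j, x 0 j ^ 2) * (∑ j, x 1 j ^ 2) * (∑ j, x 2 j ^ 2) := by
  rw [Matrix.det_fin_three]
  simp only [Matrix.of_apply, Fin.sum_univ_three]
  set a := x 0 0; set b := x 0 1; set c := x 0 2
  set d := x 1 0; set e := x 1 1; set f := x 1 2
  set g := x 2 0; set h := x 2 1; set i := x 2 2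
  have h1 : (a * (e * i - f * h) + b * (f * g - d * i) + c * (d * h - e * g)) ^ 2 ≤
      (a ^ 2 + b ^ 2 + c ^ 2) * ((e * i - f * h) ^ 2 + (f * g - d * i) ^ 2 +
        (d * h - e * g) ^ 2) := by
    nlinarith [sq_nonneg (a * (f * g - d * i) - b * (e * i - f * h)),
      sq_nonneg (a * (d * h - e * g) - c * (e * i - f * h)),
      sq_nonneg (b * (d * h - e * g) - c * (f * g - d * i))]
  have h2 : (e * i - f * h) ^ 2 + (f * g - d * i) ^ 2 + (d * h - e * g) ^ 2 ≤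
      (d ^ 2 + e ^ 2 + f ^ 2) * (g ^ 2 + h ^ 2 + i ^ 2) := by
    nlinarith [sq_nonneg (d * g + e * h + f * i)]
  have h3 : 0 ≤ a ^ 2 + b ^ 2 + c ^ 2 := by positivity
  calc _ = (a * (e * i - f * h) + b * (f * g - d * i) + c * (d * h - e * g)) ^ 2 := by ring
    _ ≤ _ := h1
    _ ≤ _ := mul_le_mul_of_nonneg_left h2 h3
    _ = _ := by ring

theorem MIN_det (x : Fin 3 → Fin 3 → ℝ)
    (h : √(∑ j, x 0 j ^ 2) + √(∑ j, x 1 j ^ 2) + √(∑ j, x 2 j ^ 2) < 3) :
    |Matrix.det (Matrix.of x)| < 1 := by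
  have hh := MIN_hadamard x
  set A := ∑ j, x 0 j ^ 2
  set B := ∑ j, x 1 j ^ 2
  set C := ∑ j, x 2 j ^ 2
  have hA : 0 ≤ A := Finset.sum_nonneg fun _ _ => sq_nonneg _
  have hB : 0 ≤ B := Finset.sum_nonneg fun _ _ => sq_nonneg _
  have hC : 0 ≤ C := Finset.sum_nonneg fun _ _ => sq_nonneg _
  have h1 : √A * √B * √C < 1 := by
    have ha := Real.sqrt_nonneg A
    have hb := Real.sqrt_nonneg B
    have hc := Real.sqrt_nonneg C
    set a := √A
    set b := √B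
    set c := √C
    have key : 27 * (a * b * c) ≤ (a + b + c) ^ 3 := by
      nlinarith [mul_nonneg ha (sq_nonneg (b - c)), mul_nonneg hb (sq_nonneg (a - c)),
        mul_nonneg hc (sq_nonneg (a - b)), mul_nonneg (add_nonneg (add_nonneg ha hb) hc)
        (add_nonneg (add_nonneg (sq_nonneg (a - b)) (sq_nonneg (b - c))) (sq_nonneg (a - c)))]
    have h3 : (a + b + c) ^ 3 < 27 := by
      have : (a + b + c) ^ 3 < 3 ^ 3 := pow_lt_pow_left₀ h (by positivity) (by norm_num)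
      linarith
    linarith
  have h2 : |Matrix.det (Matrix.of x)| ^ 2 ≤ (√A * √B * √C) ^ 2 := by
    rw [sq_abs, mul_pow, mul_pow, Real.sq_sqrt hA, Real.sq_sqrt hB, Real.sq_sqrt hC]
    exact hh
  have h3 := abs_le_of_sq_le_sq h2 (by positivity)
  rw [abs_abs] at h3
  linarith

/-- the standard basis of `Fin 3 → Fin 3 → ℝ` -/
noncomputable def MIN_b0 : Basis (Σ _ : Fin 3, Fin 3) ℝ (Fin 3 → Fin 3 → ℝ) :=
  Pi.basis fun _ => Pi.basisFun ℝ (Fin 3)

theorem MIN_b0_repr (x : Fin 3 → Fin 3 → ℝ) (p : Σ _ : Fin 3, Fin 3) :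
    MIN_b0.repr x p = x p.1 p.2 := by
  unfold MIN_b0
  rw [Pi.basis_repr]
  simp

theorem MIN_vol0 : volume (ZSpan.fundamentalDomain MIN_b0) = 1 := by
  have h : ZSpan.fundamentalDomain MIN_b0 =
      Set.pi Set.univ fun _ : Fin 3 => Set.pi Set.univ fun _ : Fin 3 => Set.Ico (0 : ℝ) 1 := by
    ext x
    simp only [ZSpan.mem_fundamentalDomain, MIN_b0_repr, Set.mem_pi, Set.mem_univ, true_imp_iff]
    exact ⟨fun h i j => h ⟨i, j⟩, fun h p => h p.1 p.2⟩
  rw [h, volume_pi_pi]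
  simp only [volume_pi_pi]
  simp

def MIN_e : (Σ _ : Fin 3, Fin 3) ≃ Fin 9 :=
  (Equiv.sigmaEquivProd (Fin 3) (Fin 3)).trans finProdFinEquiv

noncomputable def MIN_b1 : Basis (Fin 9) ℝ (Fin 3 → Fin 3 → ℝ) := MIN_b0.reindex MIN_e

theorem MIN_b1_repr (x : Fin 3 → Fin 3 → ℝ) (i : Fin 9) :
    MIN_b1.repr x i = x (MIN_e.symm i).1 (MIN_e.symm i).2 := by
  unfold MIN_b1
  rw [Basis.repr_reindex_apply, MIN_b0_repr]

theorem MIN_vol1 : volume (ZSpan.fundamentalDomain MIN_b1) = 1 := by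
  unfold MIN_b1
  rw [ZSpan.fundamentalDomain_reindex, MIN_vol0]

/-- the transposition -/
def MIN_s : Equiv.Perm (Fin 9) :=
  MIN_e.symm.trans (((Equiv.sigmaEquivProd (Fin 3) (Fin 3)).trans
    ((Equiv.prodComm _ _).trans (Equiv.sigmaEquivProd (Fin 3) (Fin 3)).symm)).trans MIN_e)

theorem MIN_s_apply (i : Fin 9) : MIN_e.symm (MIN_s i) =
    ⟨(MIN_e.symm i).2, (MIN_e.symm i).1⟩ := by
  simp [MIN_s, Equiv.sigmaEquivProd]

theorem MIN_gram (X : Fin 9 → Matrix (Fin 3) (Fin 3) ℝ) :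
    (Matrix.of fun i j => (X i * X j).trace) =
      (MIN_b1.toMatrix (fun i => (X i : Fin 3 → Fin 3 → ℝ)))ᵀ *
        (MIN_b1.toMatrix (fun i => (X i : Fin 3 → Fin 3 → ℝ))).submatrix MIN_s id := by
  ext i j
  rw [Matrix.of_apply, Matrix.mul_apply, Matrix.trace]
  simp only [Matrix.transpose_apply, Matrix.submatrix_apply, Basis.toMatrix_apply, MIN_b1_repr,
    MIN_s_apply, id, Matrix.diag_apply, Matrix.mul_apply]
  rw [← Equiv.sum_comp MIN_e]
  simp only [Equiv.symm_apply_apply]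
  rw [Fintype.sum_sigma]

theorem MIN_det1 (X : Fin 9 → Matrix (Fin 3) (Fin 3) ℝ)
    (h : (Matrix.of fun i j => (X i * X j).trace).det ^ 2 = 1) :
    |MIN_b1.det (fun i => (X i : Fin 3 → Fin 3 → ℝ))| = 1 := by
  rw [MIN_gram, Matrix.det_mul, Matrix.det_transpose, Matrix.det_permute] at h
  rw [Basis.det_apply]
  set t := (MIN_b1.toMatrix fun i => (X i : Fin 3 → Fin 3 → ℝ)).det
  have hs : ((Equiv.Perm.sign MIN_s : ℤ) : ℝ) ^ 2 = 1 := by
    rcases Int.units_eq_one_or (Equiv.Perm.sign MIN_s) with h1 | h1 <;> rw [h1] <;> norm_num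
  have h2 : (t ^ 2) ^ 2 = 1 := by
    calc (t ^ 2) ^ 2 = (t ^ 2) ^ 2 * ((Equiv.Perm.sign MIN_s : ℤ) : ℝ) ^ 2 := by rw [hs, mul_one]
      _ = (t * (((Equiv.Perm.sign MIN_s : ℤ) : ℝ) * t)) ^ 2 := by ring
      _ = 1 := h
  have h3 : t ^ 2 = 1 := by
    have : (0 : ℝ) ≤ t ^ 2 := sq_nonneg t
    nlinarith
  have h4 : |t| ^ 2 = 1 := by rw [sq_abs, h3]
  have h5 := abs_nonneg t
  nlinarith

theorem MIN (hVOL : VOL_stmt) : MIN_stmt := by
  intro X hX
  have hdet := MIN_det1 X hX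
  have hunit : IsUnit (MIN_b1.det (fun i => (X i : Fin 3 → Fin 3 → ℝ))) := by
    rw [isUnit_iff_ne_zero]
    intro h0
    rw [h0, abs_zero] at hdet
    exact zero_ne_one hdet
  obtain ⟨hli, hsp⟩ := (Module.Basis.is_basis_iff_det MIN_b1).2 hunit
  let b : Basis (Fin 9) ℝ (Fin 3 → Fin 3 → ℝ) := Basis.mk hli hsp.ge
  have hb : ∀ i, b i = (X i : Fin 3 → Fin 3 → ℝ) := fun i => Basis.mk_apply _ _ i
  have hbf : (b : Fin 9 → Fin 3 → Fin 3 → ℝ) = fun i => (X i : Fin 3 → Fin 3 → ℝ) := funext hb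
  have hvol : volume (ZSpan.fundamentalDomain b) = 1 := by
    rw [ZSpan.measure_fundamentalDomain b volume MIN_b1, hbf, hdet, MIN_vol1]
    simp
  set S : Set (Fin 3 → EuclideanSpace ℝ (Fin 3)) := {v | ‖v 0‖ + ‖v 1‖ + ‖v 2‖ < 3} with hS
  have hSo : IsOpen S := by
    apply isOpen_lt
    · fun_prop
    · fun_prop
  let Φ : (Fin 3 → Fin 3 → ℝ) → (Fin 3 → EuclideanSpace ℝ (Fin 3)) := fun v i => WithLp.toLp 2 (v i)
  have hΦ : MeasurePreserving Φ volume volume :=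
    volume_preserving_pi (fun _ => PiLp.volume_preserving_toLp (Fin 3))
  have hS' : volume (Φ ⁻¹' S) = volume S :=
    hΦ.measure_preimage hSo.measurableSet.nullMeasurableSet
  have hfin : finrank ℝ (Fin 3 → Fin 3 → ℝ) = 9 := by
    rw [finrank_eq_card_basis MIN_b1]
    simp
  have hnorm : ∀ (v : Fin 3 → Fin 3 → ℝ) (i : Fin 3), ‖Φ v i‖ = √(∑ j, v i j ^ 2) := by
    intro v i
    rw [EuclideanSpace.norm_eq]
    simp [Φ]
  have hsymm : ∀ x ∈ Φ ⁻¹' S, -x ∈ Φ ⁻¹' S := by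
    intro x hx
    rw [Set.mem_preimage, hS, Set.mem_ofPred_eq] at hx ⊢
    have h1 : ∀ i, Φ (-x) i = - Φ x i := by
      intro i
      ext j
      simp [Φ]
    rw [h1, h1, h1, norm_neg, norm_neg, norm_neg]
    exact hx
  have hconv : Convex ℝ (Φ ⁻¹' S) := by
    intro x hx y hy a c ha hc hac
    rw [Set.mem_preimage, hS, Set.mem_ofPred_eq] at hx hy ⊢
    have h1 : ∀ i, ‖Φ (a • x + c • y) i‖ ≤ a * ‖Φ x i‖ + c * ‖Φ y i‖ := by
      intro i
      have h2 : Φ (a • x + c • y) i = a • Φ x i + c • Φ y i := by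
        ext j
        simp [Φ]
      rw [h2]
      refine (norm_add_le _ _).trans ?_
      rw [norm_smul, norm_smul, Real.norm_of_nonneg ha, Real.norm_of_nonneg hc]
    have h3 := h1 0
    have h4 := h1 1
    have h5 := h1 2
    rcases lt_or_eq_of_le ha with ha' | ha'
    · nlinarith [mul_lt_mul_of_pos_left hx ha', mul_le_mul_of_nonneg_left hy.le hc]
    · subst ha'
      have hc1 : c = 1 := by linarith
      subst hc1
      linarith
  have hlt : volume (ZSpan.fundamentalDomain b) * 2 ^ finrank ℝ (Fin 3 → Fin 3 → ℝ) <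
      volume (Φ ⁻¹' S) := by
    rw [hvol, hfin, hS', one_mul]
    have := hVOL
    unfold VOL_stmt at this
    norm_num
    exact this
  have hcount : Countable (Submodule.span ℤ (Set.range b)).toAddSubgroup := by
    have h1 : Function.Surjective (fun c : Fin 9 → ℤ =>
        (⟨∑ i, c i • b i, Submodule.sum_mem _ fun i _ =>
          Submodule.smul_mem _ _ (Submodule.subset_span ⟨i, rfl⟩)⟩ :
          (Submodule.span ℤ (Set.range b)).toAddSubgroup)) := by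
      rintro ⟨y, hy⟩
      obtain ⟨c, hc⟩ := (Submodule.mem_span_range_iff_exists_fun ℤ).1 hy
      exact ⟨c, Subtype.ext hc⟩
    exact h1.countable
  obtain ⟨x, hx0, hxS⟩ := exists_ne_zero_mem_lattice_of_measure_mul_two_pow_lt_measure
    (L := (Submodule.span ℤ (Set.range b)).toAddSubgroup)
    (ZSpan.isAddFundamentalDomain' b volume) hsymm hconv hlt
  have hxL : (x : Fin 3 → Fin 3 → ℝ) ∈ Submodule.span ℤ (Set.range b) := x.2
  rw [Submodule.mem_span_range_iff_exists_fun] at hxL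
  obtain ⟨c, hc⟩ := hxL
  refine ⟨c, ?_, ?_⟩
  · rintro rfl
    apply hx0
    apply Subtype.ext
    rw [← hc]
    simp
  · have h1 : (∑ i, c i • X i) = Matrix.of (x : Fin 3 → Fin 3 → ℝ) := by
      rw [← hc]
      simp only [hb]
      ext i j
      rw [Matrix.sum_apply, Matrix.of_apply, Finset.sum_apply, Finset.sum_apply]
      rfl
    rw [h1]
    apply MIN_det
    rw [Set.mem_preimage, hS, Set.mem_ofPred_eq, hnorm, hnorm, hnorm] at hxS
    exact hxS

end Pool.Agent.SHL
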