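import Pool.Agent.helper73.SHL.Spec

/-! Row `shl:VOL`. -/

namespace Pool.Agent.SHL

open Matrix Module MeasureTheory

theorem VOL_one : ∫ x : EuclideanSpace ℝ (Fin 3), Real.exp (-(‖x‖ / 3)) = 216 * Real.pi := by
  have h := MeasureTheory.measure_lt_one_eq_integral_div_gamma (E := EuclideanSpace ℝ (Fin 3))
    volume (g := fun x => ‖x‖ / 3) (by simp) (fun x => by simp)
    (fun x y => by
      have := norm_add_le x y
      linarith)
    (fun {x} hx => by
      have : ‖x‖ = 0 := by linarith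
      exact norm_eq_zero.1 this)
    (fun r x => by
      rw [norm_smul, Real.norm_eq_abs]
      linarith) (p := 1) one_pos
  have hset : {x : EuclideanSpace ℝ (Fin 3) | ‖x‖ / 3 < 1} = Metric.ball 0 3 := by
    ext x
    rw [Set.mem_ofPred_eq, mem_ball_zero_iff]
    constructor <;> intro h <;> linarith
  rw [hset, EuclideanSpace.volume_ball_fin_three] at h
  have hg : Real.Gamma ((finrank ℝ (EuclideanSpace ℝ (Fin 3)) : ℝ) / 1 + 1) = 6 := by
    rw [finrank_euclideanSpace_fin, div_one]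
    rw [Real.Gamma_nat_eq_factorial]
    norm_num [Nat.factorial]
  rw [hg] at h
  simp only [Real.rpow_one] at h
  have hnn : 0 ≤ ∫ x : EuclideanSpace ℝ (Fin 3), Real.exp (-(‖x‖ / 3)) :=
    integral_nonneg fun _ => (Real.exp_pos _).le
  rw [← ENNReal.ofReal_pow (by norm_num), ← ENNReal.ofReal_mul (by norm_num)] at h
  have h2 := (ENNReal.ofReal_eq_ofReal_iff (by positivity) (by positivity)).1 h
  linarith

theorem VOL : VOL_stmt := by
  unfold VOL_stmt
  have hN : ∀ v : Fin 3 → EuclideanSpace ℝ (Fin 3), 0 ≤ ‖v 0‖ + ‖v 1‖ + ‖v 2‖ := fun v => by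
    positivity
  have h := MeasureTheory.measure_lt_one_eq_integral_div_gamma
    (E := Fin 3 → EuclideanSpace ℝ (Fin 3))
    volume (g := fun v => (‖v 0‖ + ‖v 1‖ + ‖v 2‖) / 3) (by simp) (fun x => by simp)
    (fun x y => by
      have h0 := norm_add_le (x 0) (y 0)
      have h1 := norm_add_le (x 1) (y 1)
      have h2 := norm_add_le (x 2) (y 2)
      simp only [Pi.add_apply]
      linarith)
    (fun {x} hx => by
      have h0 := norm_nonneg (x 0)
      have h1 := norm_nonneg (x 1)
      have h2 := norm_nonneg (x 2)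
      have e0 : ‖x 0‖ = 0 := by linarith
      have e1 : ‖x 1‖ = 0 := by linarith
      have e2 : ‖x 2‖ = 0 := by linarith
      funext i
      fin_cases i
      · exact norm_eq_zero.1 e0
      · exact norm_eq_zero.1 e1
      · exact norm_eq_zero.1 e2)
    (fun r x => by
      simp only [Pi.smul_apply, norm_smul, Real.norm_eq_abs]
      exact le_of_eq (by ring)) (p := 1) one_pos
  have hset : {v : Fin 3 → EuclideanSpace ℝ (Fin 3) | (‖v 0‖ + ‖v 1‖ + ‖v 2‖) / 3 < 1} =
      {v : Fin 3 → EuclideanSpace ℝ (Fin 3) | ‖v 0‖ + ‖v 1‖ + ‖v 2‖ < 3} := by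
    ext x
    rw [Set.mem_ofPred_eq, Set.mem_ofPred_eq]
    constructor <;> intro h <;> linarith
  rw [hset] at h
  have hfin : finrank ℝ (Fin 3 → EuclideanSpace ℝ (Fin 3)) = 9 := by
    rw [Module.finrank_pi_fintype]
    simp
  have hg : Real.Gamma ((finrank ℝ (Fin 3 → EuclideanSpace ℝ (Fin 3)) : ℝ) / 1 + 1) =
      362880 := by
    rw [hfin, div_one, Real.Gamma_nat_eq_factorial]
    norm_num [Nat.factorial]
  have hint : ∫ v : Fin 3 → EuclideanSpace ℝ (Fin 3),
      Real.exp (-((‖v 0‖ + ‖v 1‖ + ‖v 2‖) / 3) ^ (1 : ℝ)) = (216 * Real.pi) ^ 3 := by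
    rw [← VOL_one]
    have := integral_fintype_prod_volume_eq_pow (ι := Fin 3) (E := EuclideanSpace ℝ (Fin 3))
      (fun x => Real.exp (-(‖x‖ / 3)))
    rw [Fintype.card_fin] at this
    rw [← this]
    congr 1
    funext v
    rw [Fin.prod_univ_three, ← Real.exp_add, ← Real.exp_add, Real.rpow_one]
    congr 1
    ring
  rw [h, hint, hg]
  have h512 : (512 : ENNReal) = ENNReal.ofReal 512 := by norm_num
  rw [h512]
  rw [ENNReal.ofReal_lt_ofReal_iff (by positivity)]
  have hpi : (3 : ℝ) < Real.pi := Real.pi_gt_three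
  have h3 : (3 : ℝ) ^ 3 < Real.pi ^ 3 := pow_lt_pow_left₀ hpi (by norm_num) (by norm_num)
  rw [lt_div_iff₀ (by norm_num), mul_pow]
  nlinarith

end Pool.Agent.SHL
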